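import Pool.Agent.H11.KT.Targets

/-!
# KT board, K_BC: `Bs` takes values in the derived group of `M`
-/

set_option autoImplicit false

open scoped commutatorElement

namespace Pool.Agent.H11.KT

open Pool.Agent.H11.EL

theorem pf_BC : K_BC := by
  intro G _ M hM n t x u hx hu
  induction n with
  | zero => exact Subgroup.one_mem _
  | succ n ih =>
    rw [Bs_succ]
    refine Subgroup.mul_mem _ ih (Subgroup.mul_mem _ ?_ ?_)
    · exact Subgroup.commutator_mem_commutator (hM.conj_mem _ (hx n) _)
        (comm_mem_left hM (hu n) _)
    · exact Subgroup.commutator_mem_commutator (Ps_mem hM fun i _ => hu i)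
        (hM.conj_mem _ (comm_mem_left hM (hx n) _) _)

end Pool.Agent.H11.KT
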