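import Pool.Agent.H11.KT.Targets

/-!
# KT board, K_NP: nilpotent groups
-/

set_option autoImplicit false

open scoped commutatorElement

namespace Pool.Agent.H11.KT

open Pool.Agent.H11.EL

theorem pf_NP (hNG : K_NG) (hNB : T_NB) : K_NP := by
  intro G _ hG s m n hm hcl g hg
  have hS := hNG G hG _ hcl
  obtain ⟨x, hx⟩ := hNB G hG s n hS g hg
  let c : ℕ → G := fun i => if i % 2 = 1 ∧ i / 2 < s then x (i / 2) else 1
  have e0 : ∀ k : ℕ, cj (pat s n) c (2 * k) = n (k % s) := by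
    intro k
    have h1 : (2 * k) % 2 = 0 := by omega
    have h2 : (2 * k) / 2 = k := by omega
    have h3 : ¬ ((2 * k) % 2 = 1 ∧ 2 * k / 2 < s) := by omega
    change c (2 * k) * pat s n (2 * k) * (c (2 * k))⁻¹ = _
    have h4 : c (2 * k) = 1 := if_neg h3
    have h5 : pat s n (2 * k) = n (2 * k / 2 % s) := if_pos h1
    rw [h4, h5, h2]
    simp
  have e1 : ∀ k : ℕ, cj (pat s n) c (2 * k + 1) =
      c (2 * k + 1) * (n (k % s))⁻¹ * (c (2 * k + 1))⁻¹ := by
    intro k
    have h1 : ¬ (2 * k + 1) % 2 = 0 := by omega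
    have h2 : (2 * k + 1) / 2 = k := by omega
    change c (2 * k + 1) * pat s n (2 * k + 1) * (c (2 * k + 1))⁻¹ = _
    have h5 : pat s n (2 * k + 1) = (n ((2 * k + 1) / 2 % s))⁻¹ := if_neg h1
    rw [h5, h2]
  have c1 : ∀ k : ℕ, k < s → c (2 * k + 1) = x k := by
    intro k hk
    have h2 : (2 * k + 1) / 2 = k := by omega
    have h3 : (2 * k + 1) % 2 = 1 ∧ (2 * k + 1) / 2 < s := by omega
    have h4 : c (2 * k + 1) = x ((2 * k + 1) / 2) := if_pos h3
    rw [h4, h2]
  have c2 : ∀ k : ℕ, s ≤ k → c (2 * k + 1) = 1 := by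
    intro k hk
    have h3 : ¬ ((2 * k + 1) % 2 = 1 ∧ (2 * k + 1) / 2 < s) := by omega
    exact if_neg h3
  have step : ∀ k : ℕ, Px (2 * (k + 1)) (cj (pat s n) c) = Px (2 * k) (cj (pat s n) c) *
      (n (k % s) * (c (2 * k + 1) * (n (k % s))⁻¹ * (c (2 * k + 1))⁻¹)) := by
    intro k
    rw [show 2 * (k + 1) = 2 * k + 1 + 1 by ring, Px_succ, Px_succ, e0, e1, mul_assoc]
  have claimA : ∀ k : ℕ, k ≤ s → Px (2 * k) (cj (pat s n) c) = cp k n x := by
    intro k
    induction k with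
    | zero => intro _; simp
    | succ k ih =>
      intro hk
      rw [step, ih (by omega), cp_succ, c1 k (by omega), Nat.mod_eq_of_lt (by omega),
        commutatorElement_def]
      simp only [mul_assoc]
  have claimB : ∀ k : ℕ, Px (2 * (s + k)) (cj (pat s n) c) = cp s n x := by
    intro k
    induction k with
    | zero => exact claimA s le_rfl
    | succ k ih =>
      rw [← add_assoc, step, ih, c2 (s + k) (by omega)]
      simp
  have hN : 2 * s * m = 2 * (s + s * (m - 1)) := by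
    obtain ⟨m', rfl⟩ : ∃ m', m = m' + 1 := ⟨m - 1, by omega⟩
    rw [Nat.add_sub_cancel]
    ring
  refine ⟨c, ?_, ?_⟩
  · rw [hN, claimB, hx]
  · rw [eq_top_iff, ← hS]
    apply Subgroup.closure_mono
    rintro _ ⟨i, hi, rfl⟩
    refine ⟨2 * i, ?_, ?_⟩
    · rw [hN]
      have : i < s + s * (m - 1) := lt_of_lt_of_le hi (Nat.le_add_right _ _)
      omega
    · rw [e0, Nat.mod_eq_of_lt hi]

end Pool.Agent.H11.KT
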