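import Pool.Agent.H11.KT.Fin
import Pool.Agent.H11.KT.KBC
import Pool.Agent.H11.KT.KNP
import Pool.Agent.H32.KT.FCM
import Pool.Agent.H32.KT.FCO
import Pool.Agent.H6.KT.FFS
import Pool.Agent.H86.KT.IM
import Pool.Agent.H1.KT.IN
import Pool.Agent.H24.KT.FMO
import Pool.Agent.H60.KT.MV
import Pool.Agent.H72.KT.FNO
import Pool.Agent.H98.KT.FPM
import Pool.Agent.H52.KT.FSB
import Pool.Agent.H63.KT.FSO
import Pool.Agent.H46.KT.KBA
import Pool.Agent.H10.KT.BL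
import Pool.Agent.H68.KT.BM
import Pool.Agent.H27.KT.KCI
import Pool.Agent.H60.KT.GS
import Pool.Agent.H6.KT.KKI
import Pool.Agent.H58.KT.KKT
import Pool.Agent.H81.KT.KLL
import Pool.Agent.H27.KT.KLM
import Pool.Agent.H27.KT.KLN
import Pool.Agent.H45.KT.ND
import Pool.Agent.H27.KT.KNG
import Pool.Agent.H60.KT.PR
import Pool.Agent.H74.KT.KQT
import Pool.Agent.H49.KT.BS
import Pool.Agent.H6.KT.PFG
import Pool.Agent.H63.KT.PKP
import Pool.Agent.H70.KT.PMX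
import Pool.Agent.H58.KT.PPP
import Pool.Agent.H94.KT.PRX

/-!
# MP_0b603e_al: assembly of the modules, second part
-/

set_option autoImplicit false

open scoped commutatorElement

namespace Pool.Agent.H11.KT

open Pool.Agent.H11.EL

theorem all_CM2 : F_CM := Pool.Agent.H32.KT.pf_CM Pool.Agent.H1.KT.pf_IN

theorem all_IM : F_IM := Pool.Agent.H86.KT.pf_IM Pool.Agent.H63.KT.pf_SO
  Pool.Agent.H72.KT.pf_NO all_CM2 (Pool.Agent.H60.KT.pf_MV Pool.Agent.H1.KT.pf_IN)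
  Pool.Agent.H32.KT.pf_CO

theorem all_MO2 : F_MO := Pool.Agent.H24.KT.pf_MO all_IM Pool.Agent.H52.KT.pf_SB
  (Pool.Agent.H98.KT.pf_PM Pool.Agent.H63.KT.pf_SO Pool.Agent.H72.KT.pf_NO all_CM2)

theorem all_FS : F_FS := Pool.Agent.H6.KT.pf_FS all_MO2

theorem all_BA2 : K_BA := Pool.Agent.H46.KT.pf_BA Pool.Agent.H27.KT.pf_CI Pool.Agent.H27.KT.pf_PI

theorem all_LM2 : K_LM := Pool.Agent.H27.KT.pf_LM Pool.Agent.H27.KT.pf_LN

theorem all_LL2 : K_LL := Pool.Agent.H81.KT.pf_LL Pool.Agent.H10.KT.pf_BL pf_BC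
  Pool.Agent.H68.KT.pf_BM Pool.Agent.H45.KT.pf_ND Pool.Agent.H47.EL.pf_ra
  Pool.Agent.H91.EL.pf_mo all_BA2 Pool.Agent.H47.EL.pf_sz all_LM2

theorem all_GS2 : K_GS := Pool.Agent.H60.KT.pf_GS Pool.Agent.H58.EL.pf_fr
  Pool.Agent.H85.EL.pf_cq Pool.Agent.H27.KT.pf_LN all_LL2 Pool.Agent.H74.KT.pf_QT

theorem all_KI : K_KI := Pool.Agent.H6.KT.pf_KI Pool.Agent.H47.EL.pf_st
  (pf_NP Pool.Agent.H27.KT.pf_NG Pool.Agent.H85.EL.pf_nb) all_GS2 all_FS
  Pool.Agent.H27.KT.pf_PI (Pool.Agent.H60.KT.pf_PR Pool.Agent.H27.KT.pf_CI)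

theorem all_KT : K_KT := Pool.Agent.H58.KT.pf_KT all_KI

theorem all_KP : P_KP := Pool.Agent.H63.KT.pf_KP all_KT

theorem all_BS : P_BS := Pool.Agent.H49.KT.pf_BS all_KP Pool.Agent.H58.KT.pf_PP all_CW

/-- finite soluble groups, perfect forcing words -/
theorem all_RS (r : ℕ) (w : FreeGroup (Fin r)) (hw : PerfectForcing w) :
    ∃ M : ℕ, ∀ (G : Type) [Group G] [Finite G], Group.IsSolvable G → ∀ x y : G,
      PW w M ⁅x, y⁆ :=
  pf_RSP all_KP Pool.Agent.H58.KT.pf_PP r w hw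

/-- the explicit words -/
theorem all_RX (m : ℕ) (c : FreeGroup (Fin m)) (hc : c ∈ commutator (FreeGroup (Fin m))) :
    PerfectForcing (rword m c) :=
  PF_of_RW (Pool.Agent.H94.KT.pf_RX Pool.Agent.H6.KT.pf_FG Pool.Agent.H70.KT.pf_MX m c hc)

/-- perfect forcing words: commutators -/
theorem all_commA (r : ℕ) (w : FreeGroup (Fin r)) (hw : PerfectForcing w) (ρ k : ℕ) :
    ∃ M : ℕ, ∀ (G : Type) [Group G], Cplx (BaseA ρ) k G → ∀ x y : G, PW w M ⁅x, y⁆ :=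
  comm_of_Cplx (MA_of_PF hw) (fun G _ => BaseA ρ G) (baseA all_RS hw ρ) k

/-- metabelian forcing words: commutators -/
theorem all_commB (r : ℕ) (w : FreeGroup (Fin r)) (hw : MetabelianForcing w) (ρ k : ℕ) :
    ∃ M : ℕ, ∀ (G : Type) [Group G], Cplx (BaseB ρ) k G → ∀ x y : G, PW w M ⁅x, y⁆ :=
  comm_of_Cplx hw (fun G _ => BaseB ρ G) (baseB all_BS hw ρ) k

/-- perfect forcing words: width -/
theorem all_widthA (r : ℕ) (w : FreeGroup (Fin r)) (hw : PerfectForcing w) (ρ d : ℕ) :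
    ∃ K : ℕ, ∀ (G : Type) [Group G] [Finite G],
      (∃ S : Subgroup G, S.Normal ∧ Group.IsSolvable S ∧ S.index ≤ ρ) →
      (∃ s : Finset G, s.card ≤ d ∧ Subgroup.closure (s : Set G) = ⊤) →
      ∀ g ∈ Subgroup.closure (Set.range (fun f : Fin r → G => FreeGroup.lift f w)),
        PW w K g := by
  obtain ⟨M, hM⟩ := all_commA r w hw ρ 1
  obtain ⟨K, hK⟩ := width_of_comm (w := w) (fun _ _ => True) M ρ d
    (fun G _ _ _ hS x y => hM G (Cplx_solv hS) x y)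
  exact ⟨K, fun G _ _ hS hs g hg => hK G trivial hS hs g hg⟩

/-- metabelian forcing words: width -/
theorem all_widthB (r : ℕ) (w : FreeGroup (Fin r)) (hw : MetabelianForcing w) (ρ k d : ℕ) :
    ∃ K : ℕ, ∀ (G : Type) [Group G] [Finite G], Cplx (BaseB ρ) k G →
      (∃ S : Subgroup G, S.Normal ∧ Group.IsSolvable S ∧ S.index ≤ ρ) →
      (∃ s : Finset G, s.card ≤ d ∧ Subgroup.closure (s : Set G) = ⊤) →
      ∀ g ∈ Subgroup.closure (Set.range (fun f : Fin r → G => FreeGroup.lift f w)),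
        PW w K g := by
  obtain ⟨M, hM⟩ := all_commB r w hw ρ k
  exact width_of_comm (w := w) (fun G _ => Cplx (BaseB ρ) k G) M ρ d
    (fun G _ _ hC _ x y => hM G hC x y)

end Pool.Agent.H11.KT
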