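import Pool.Agent.H11.EL.Targets2

/-!
# MP_0b603e_al (uniform ellipticity of words): products of conjugates, definitions

`G` is a finite soluble group. A product of conjugates of given elements `t 0, t 1, ...` is varied
by elements of a normal subgroup `M`.
-/

set_option autoImplicit false

open scoped commutatorElement

namespace Pool.Agent.H11.KT

open Pool.Agent.H11.EL

section Conj

variable {G : Type} [Group G]

/-- the product `t 0 * ... * t (n - 1)` -/
def Px (n : ℕ) (t : ℕ → G) : G := ((List.range n).map t).prod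

/-- the sequence of the conjugates of `t i` by `c i` -/
def cj (t c : ℕ → G) : ℕ → G := fun i => c i * t i * (c i)⁻¹

/-- the first `n` entries -/
def en (n : ℕ) (t : ℕ → G) : Set G := {g | ∃ i < n, g = t i}

/-- `Px n (cj t x) = Ps n t x * Px n t` -/
def Ps (n : ℕ) (t x : ℕ → G) : G :=
  ((List.range n).map fun i => Px i t * ⁅x i, t i⁆ * (Px i t)⁻¹).prod

/-- the bilinear form of `Ps` -/
def Bs (n : ℕ) (t x u : ℕ → G) : G :=
  ((List.range n).map fun i => ⁅t i * x i * (t i)⁻¹, ⁅u i, t i⁆⁆ *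
    ⁅Ps i t u, Px i t * ⁅x i, t i⁆ * (Px i t)⁻¹⁆).prod

/-- the pattern `n 0, (n 0)⁻¹, n 1, (n 1)⁻¹, ...`, with period `2 s` -/
def pat (s : ℕ) (n : ℕ → G) : ℕ → G :=
  fun i => if i % 2 = 0 then n (i / 2 % s) else (n (i / 2 % s))⁻¹

@[simp] theorem Px_zero (t : ℕ → G) : Px 0 t = 1 := rfl

theorem Px_succ (n : ℕ) (t : ℕ → G) : Px (n + 1) t = Px n t * t n := by
  unfold Px
  rw [List.range_succ, List.map_append, List.prod_append]
  simp

@[simp] theorem Ps_zero (t x : ℕ → G) : Ps 0 t x = 1 := rfl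

theorem Ps_succ (n : ℕ) (t x : ℕ → G) :
    Ps (n + 1) t x = Ps n t x * (Px n t * ⁅x n, t n⁆ * (Px n t)⁻¹) := by
  unfold Ps
  rw [List.range_succ, List.map_append, List.prod_append]
  simp

@[simp] theorem Bs_zero (t x u : ℕ → G) : Bs 0 t x u = 1 := rfl

theorem Bs_succ (n : ℕ) (t x u : ℕ → G) : Bs (n + 1) t x u =
    Bs n t x u * (⁅t n * x n * (t n)⁻¹, ⁅u n, t n⁆⁆ *
      ⁅Ps n t u, Px n t * ⁅x n, t n⁆ * (Px n t)⁻¹⁆) := by
  unfold Bs
  rw [List.range_succ, List.map_append, List.prod_append]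
  simp

theorem Px_cj (n : ℕ) (t x : ℕ → G) : Px n (cj t x) = Ps n t x * Px n t := by
  induction n with
  | zero => simp
  | succ n ih =>
    rw [Px_succ, Ps_succ, Px_succ, ih]
    simp only [cj, commutatorElement_def]
    group

theorem cj_cj (t c x : ℕ → G) : cj (cj t c) x = cj t (fun i => x i * c i) := by
  funext i
  simp only [cj]
  group

theorem Px_congr {n : ℕ} {t t' : ℕ → G} (h : ∀ i < n, t i = t' i) : Px n t = Px n t' := by
  unfold Px
  congr 1
  apply List.map_congr_left
  intro i hi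
  rw [List.mem_range] at hi
  exact h i hi

theorem Ps_congr {n : ℕ} {t x x' : ℕ → G} (h : ∀ i < n, x i = x' i) : Ps n t x = Ps n t x' := by
  unfold Ps
  congr 1
  apply List.map_congr_left
  intro i hi
  rw [List.mem_range] at hi
  rw [h i hi]

theorem Bs_congr {n : ℕ} {t x x' u u' : ℕ → G} (h : ∀ i < n, x i = x' i)
    (h' : ∀ i < n, u i = u' i) : Bs n t x u = Bs n t x' u' := by
  unfold Bs
  congr 1
  apply List.map_congr_left
  intro i hi
  rw [List.mem_range] at hi
  rw [h i hi, h' i hi, Ps_congr fun j hj => h' j (hj.trans hi)]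

theorem Px_map {H : Type} [Group H] (φ : G →* H) (n : ℕ) (t : ℕ → G) :
    φ (Px n t) = Px n (fun i => φ (t i)) := by
  induction n with
  | zero => simp
  | succ n ih => rw [Px_succ, Px_succ, map_mul, ih]

theorem Ps_map {H : Type} [Group H] (φ : G →* H) (n : ℕ) (t x : ℕ → G) :
    φ (Ps n t x) = Ps n (fun i => φ (t i)) (fun i => φ (x i)) := by
  induction n with
  | zero => simp
  | succ n ih =>
    rw [Ps_succ, Ps_succ, map_mul, ih, map_mul, map_mul, map_inv, Px_map, map_commutatorElement]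

theorem cj_map {H : Type} [Group H] (φ : G →* H) (t c : ℕ → G) :
    (fun i => φ (cj t c i)) = cj (fun i => φ (t i)) (fun i => φ (c i)) := by
  funext i
  simp [cj]

theorem pat_map {H : Type} [Group H] (φ : G →* H) (s : ℕ) (n : ℕ → G) :
    (fun i => φ (pat s n i)) = pat s (fun i => φ (n i)) := by
  funext i
  unfold pat
  split_ifs <;> simp

theorem en_map {H : Type} [Group H] (φ : G →* H) (n : ℕ) (t : ℕ → G) :
    φ '' en n t = en n (fun i => φ (t i)) := by
  ext g
  constructor
  · rintro ⟨x, ⟨i, hi, h⟩, rfl⟩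
    exact ⟨i, hi, by rw [h]⟩
  · rintro ⟨i, hi, h⟩
    exact ⟨t i, ⟨i, hi, rfl⟩, h.symm⟩

omit [Group G] in
theorem mem_en {n : ℕ} {t : ℕ → G} {i : ℕ} (h : i < n) : t i ∈ en n t := ⟨i, h, rfl⟩

omit [Group G] in
theorem en_congr {n : ℕ} {t t' : ℕ → G} (h : ∀ i < n, t i = t' i) : en n t = en n t' := by
  ext g
  constructor
  · rintro ⟨i, hi, hg⟩
    exact ⟨i, hi, by rw [hg, h i hi]⟩
  · rintro ⟨i, hi, hg⟩
    exact ⟨i, hi, by rw [hg, h i hi]⟩

theorem comm_mem_left {M : Subgroup G} (hM : M.Normal) {x : G} (hx : x ∈ M) (t : G) :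
    ⁅x, t⁆ ∈ M := by
  rw [commutatorElement_def, mul_assoc, mul_assoc]
  refine M.mul_mem hx ?_
  have := hM.conj_mem _ (M.inv_mem hx) t
  rwa [mul_assoc] at this

theorem Ps_mem {M : Subgroup G} (hM : M.Normal) {n : ℕ} {t x : ℕ → G} (hx : ∀ i < n, x i ∈ M) :
    Ps n t x ∈ M := by
  induction n with
  | zero => exact M.one_mem
  | succ n ih =>
    rw [Ps_succ]
    exact M.mul_mem (ih fun i hi => hx i (by omega))
      (hM.conj_mem _ (comm_mem_left hM (hx n (by omega)) _) _)

/-- the number of the elements of `M` which commute with `t` modulo `Z` -/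
noncomputable def cz (M Z : Subgroup G) (t : G) : ℕ := Nat.card {u : M // ⁅(u : G), t⁆ ∈ Z}

end Conj

section Module

variable (G V : Type) [Group G] [AddCommGroup V] [DistribMulAction G V]

/-- `V` is irreducible -/
def Irr : Prop := (∃ v : V, v ≠ 0) ∧
  ∀ U : AddSubgroup V, (∀ (g : G), ∀ v ∈ U, g • v ∈ U) → U = ⊥ ∨ U = ⊤

variable {G V}

/-- the number of the fixed vectors of `g` -/
noncomputable def fc (V : Type) [AddCommGroup V] [DistribMulAction G V] (g : G) : ℕ :=
  Nat.card {v : V // g • v = v}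

/-- a system of orthogonal projections which are permuted by `G` -/
structure Sys (G : Type) {V : Type} [Group G] [AddCommGroup V] [DistribMulAction G V]
    {Ω : Type} [Fintype Ω] [MulAction G Ω] (e : Ω → V →+ V) : Prop where
  sum : ∀ v : V, ∑ ω : Ω, e ω v = v
  orth : ∀ ω ω' : Ω, ω ≠ ω' → ∀ v : V, e ω (e ω' v) = 0
  equ : ∀ (g : G) (ω : Ω) (v : V), g • e ω v = e (g • ω) (g • v)
  ne : ∀ ω : Ω, ∃ v : V, e ω v ≠ 0

end Module

/-- every group which is generated by two elements and satisfies the law `w` has a finitely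
generated and perfect derived group -/
def RW {r : ℕ} (w : FreeGroup (Fin r)) : Prop :=
  ∀ (H : Type) [Group H] (x y : H), Subgroup.closure ({x, y} : Set H) = ⊤ →
    (∀ f : Fin r → H, FreeGroup.lift f w = 1) →
      (commutator H).FG ∧ ⁅commutator H, commutator H⁆ = commutator H

end Pool.Agent.H11.KT
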