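import Pool.Agent.H11.KT.RSP
import Pool.Agent.H11.EL.All

/-!
# MP_0b603e_al: from the modules to the final statements, second part
-/

set_option autoImplicit false

open scoped commutatorElement

namespace Pool.Agent.H11.KT

open Pool.Agent.H11.EL

theorem Cplx_mono {S : (G : Type) → [Group G] → Prop} : ∀ {k l : ℕ}, k ≤ l → ∀ {G : Type}
    [Group G], Cplx S k G → Cplx S l G := by
  intro k l hkl
  induction hkl with
  | refl => intro G _ h; exact h
  | step _ ih => intro G _ h; exact Or.inl (ih h)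

private theorem pw_sub {r : ℕ} {w : FreeGroup (Fin r)} {M : ℕ} {G : Type} [Group G]
    (N : Subgroup G) (h : ∀ x y : N, PW w M ⁅x, y⁆) :
    ∀ x ∈ N, ∀ y ∈ N, PW w M ⁅x, y⁆ := by
  intro x hx y hy
  have h1 := (h ⟨x, hx⟩ ⟨y, hy⟩).map N.subtype
  rw [map_commutatorElement] at h1
  exact h1

/-- commutators in groups of bounded complexity over a class of groups -/
theorem comm_of_Cplx {r : ℕ} {w : FreeGroup (Fin r)} (hw : MA w)
    (S : (G : Type) → [Group G] → Prop)
    (hS : ∃ M : ℕ, ∀ (G : Type) [Group G], S G → ∀ x y : G, PW w M ⁅x, y⁆) (k : ℕ) :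
    ∃ M : ℕ, ∀ (G : Type) [Group G], Cplx S k G → ∀ x y : G, PW w M ⁅x, y⁆ := by
  have hNF : T_NF := Pool.Agent.H35.EL.pf_nf
  have hXT : T_XT := Pool.Agent.H14.EL.pf_xt hNF
  induction k with
  | zero => exact hS
  | succ k ih =>
    obtain ⟨M, hM⟩ := ih
    obtain ⟨M1, h1⟩ := hXT r w hw M M
    obtain ⟨M2, h2⟩ := all_MG r w hw M M
    refine ⟨max (M * 2) (max M1 M2), ?_⟩
    intro G _ hC x y
    have hM' : M ≤ max (M * 2) (max M1 M2) := le_trans (by omega) (le_max_left _ _)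
    rcases hC with hC | ⟨N, hN, c1, c2⟩ | ⟨A, B, hAB, cA, cB⟩ | ⟨I, H, inst, cH, ⟨e⟩⟩ |
      ⟨H, inst, cH, φ, hφ⟩ | hC
    · exact (hM G hC x y).mono hM'
    · have := hN
      exact (h1 G N (pw_sub N (fun a b => hM N c1 a b)) (fun a b => hM (G ⧸ N) c2 a b) x y).mono
        (le_max_of_le_right (le_max_left _ _))
    · exact (h2 G A B hAB (pw_sub A (fun a b => hM A cA a b))
        (pw_sub B (fun a b => hM B cB a b)) x y).mono
        (le_max_of_le_right (le_max_right _ _))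
    · have h3 := PW_pi hNF w M H ⁅e x, e y⁆ fun i => hM (H i) (cH i) (e x i) (e y i)
      have h4 := h3.map e.symm.toMonoidHom
      rw [map_commutatorElement] at h4
      have e1 : e.symm.toMonoidHom (e x) = x := e.symm_apply_apply x
      have e2 : e.symm.toMonoidHom (e y) = y := e.symm_apply_apply y
      rw [e1, e2] at h4
      exact h4.mono (le_max_left _ _)
    · obtain ⟨a, rfl⟩ := hφ x
      obtain ⟨b, rfl⟩ := hφ y
      have h3 := (hM H cH a b).map φ
      rw [map_commutatorElement] at h3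
      exact h3.mono hM'
    · obtain ⟨A, hx, hy, hA⟩ := hC x y
      exact (pw_sub A (fun a b => hM A hA a b) x hx y hy).mono hM'

/-- the base class for perfect forcing words -/
theorem baseA (hRS : ∀ (r : ℕ) (w : FreeGroup (Fin r)), PerfectForcing w →
    ∃ M : ℕ, ∀ (G : Type) [Group G] [Finite G], Group.IsSolvable G → ∀ x y : G, PW w M ⁅x, y⁆)
    {r : ℕ} {w : FreeGroup (Fin r)} (hw : PerfectForcing w) (ρ : ℕ) :
    ∃ M : ℕ, ∀ (G : Type) [Group G], BaseA ρ G → ∀ x y : G, PW w M ⁅x, y⁆ := by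
  obtain ⟨M, hM⟩ := all_comm r w (MA_of_PF hw) ρ 0
  obtain ⟨M', hM'⟩ := hRS r w hw
  refine ⟨max M M', fun G _ hG x y => ?_⟩
  rcases hG with h | h | ⟨hf, hs⟩
  · exact (hM G (Or.inl h) x y).mono (le_max_left _ _)
  · exact (hM G (Or.inr (Or.inl h)) x y).mono (le_max_left _ _)
  · exact (hM' G hs x y).mono (le_max_right _ _)

/-- the base class for metabelian forcing words -/
theorem baseB (hBS : P_BS) {r : ℕ} {w : FreeGroup (Fin r)} (hw : MA w) (ρ : ℕ) :
    ∃ M : ℕ, ∀ (G : Type) [Group G], BaseB ρ G → ∀ x y : G, PW w M ⁅x, y⁆ := by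
  obtain ⟨M, hM⟩ := all_comm r w hw ρ 0
  obtain ⟨M', hM'⟩ := hBS r w hw ρ
  refine ⟨max M M', fun G _ hG x y => ?_⟩
  rcases hG with h | h | h | ⟨hf, hs, h1, h2⟩
  · exact (hM G (Or.inl h) x y).mono (le_max_left _ _)
  · exact (hM G (Or.inr (Or.inl h)) x y).mono (le_max_left _ _)
  · exact (hM G (Or.inr (Or.inr h)) x y).mono (le_max_left _ _)
  · exact (hM' G hs h1 h2 x y).mono (le_max_right _ _)

private theorem PW_cp {r : ℕ} {w : FreeGroup (Fin r)} {G : Type} [Group G] {M : ℕ}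
    (h : ∀ x y : G, PW w M ⁅x, y⁆) (a b : ℕ → G) (n : ℕ) : PW w (n * M) (cp n a b) := by
  induction n with
  | zero => rw [cp_zero]; exact PW.one _
  | succ n ih =>
    rw [cp_succ, Nat.succ_mul]
    exact ih.mul (h _ _)

private theorem family {X : Type} (e : X) (s : Finset X) (d : ℕ) (hd : s.card ≤ d) :
    ∃ f : Fin d → X, (s : Set X) ⊆ Set.range f := by
  classical
  refine ⟨fun i => s.toList.getD i e, ?_⟩
  intro x hx
  have hx1 : x ∈ s.toList := by simpa using hx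
  obtain ⟨i, hi, hxi⟩ := List.mem_iff_getElem.1 hx1
  have hi1 : i < s.card := by simpa using hi
  refine ⟨⟨i, by omega⟩, ?_⟩
  change s.toList.getD i e = x
  rw [List.getD_eq_getElem _ _ hi, hxi]

/-- the width in finite soluble-by-bounded groups -/
theorem width_of_comm {r : ℕ} {w : FreeGroup (Fin r)} (P : (G : Type) → [Group G] → Prop)
    (M ρ d : ℕ) (hM : ∀ (G : Type) [Group G] [Finite G], P G →
      (∃ S : Subgroup G, S.Normal ∧ Group.IsSolvable S ∧ S.index ≤ ρ) → ∀ x y : G,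
        PW w M ⁅x, y⁆) :
    ∃ K : ℕ, ∀ (G : Type) [Group G] [Finite G], P G →
        (∃ S : Subgroup G, S.Normal ∧ Group.IsSolvable S ∧ S.index ≤ ρ) →
        (∃ s : Finset G, s.card ≤ d ∧ Subgroup.closure (s : Set G) = ⊤) →
        ∀ g ∈ Subgroup.closure (Set.range (fun f : Fin r → G => FreeGroup.lift f w)),
          PW w K g := by
  obtain ⟨n, hn⟩ := all_VC d ρ
  refine ⟨1 + n * M, ?_⟩
  intro G _ _ hC hS hs g hg
  have hcomm := hM G hC hS
  obtain ⟨S, hSn, hSs, hSi⟩ := hS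
  obtain ⟨s, hsd, hs1⟩ := hs
  obtain ⟨f, hf⟩ := Pool.Agent.H74.EL.pf_ab r w G g hg
  obtain ⟨t, ht⟩ := family (1 : G) s d hsd
  have ht1 : Subgroup.closure (Set.range t) = ⊤ := by
    rw [eq_top_iff, ← hs1]
    exact Subgroup.closure_mono ht
  obtain ⟨a, b, hab⟩ := hn G S hSn hSs hSi t ht1 _ hf
  have h1 := PW_cp hcomm a b n
  rw [hab] at h1
  have h2 := (PW.val (w := w) f).mul h1
  rwa [mul_inv_cancel_left] at h2

/-- finite soluble-by-bounded groups have complexity one over the base class -/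
theorem Cplx_solv {ρ : ℕ} {G : Type} [Group G] [Finite G]
    (h : ∃ S : Subgroup G, S.Normal ∧ Group.IsSolvable S ∧ S.index ≤ ρ) :
    Cplx (BaseA ρ) 1 G := by
  obtain ⟨S, hn, hs, hi⟩ := h
  refine Or.inr (Or.inl ⟨S, hn, ?_, ?_⟩)
  · exact Or.inr (Or.inr ⟨inferInstance, hs⟩)
  · exact Or.inr (Or.inl ⟨inferInstance, hi⟩)

end Pool.Agent.H11.KT
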