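import Pool.Agent.H11.KT.Stmt

/-!
# MP_0b603e_al: forcing words
-/

set_option autoImplicit false

open scoped commutatorElement

namespace Pool.Agent.H11.KT

/-- the word `w` is a law of the group `H` -/
def Law {r : ℕ} (w : FreeGroup (Fin r)) (H : Type) [Group H] : Prop :=
  ∀ f : Fin r → H, FreeGroup.lift f w = 1

/-- `w` is a forcing word: (a) every group with the law `w` has the law
`⁅y, x⁆ c(x y x⁻¹, x ^ 2 y x⁻², .., x ^ m y x⁻ᵐ)` for some `c` in the derived group of the free
group with `m` generators, or (b) in every group with the law `w` every commutator lies in a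
finitely generated perfect subgroup -/
def ForcingWord {r : ℕ} (w : FreeGroup (Fin r)) : Prop :=
  (∃ (m : ℕ) (c : FreeGroup (Fin m)), c ∈ commutator (FreeGroup (Fin m)) ∧
    ∀ (H : Type) [Group H], Law w H → Law (rword m c) H) ∨
  ∀ (H : Type) [Group H], Law w H →
    ∀ x y : H, ∃ A : Subgroup H, A.FG ∧ ⁅A, A⁆ = A ∧ ⁅x, y⁆ ∈ A

end Pool.Agent.H11.KT
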