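import Pool.Agent.H11.KT.All
import Pool.Agent.H11.KT.Stmt2

/-!
# MP_0b603e_al: the final statements
-/

set_option autoImplicit false

open scoped commutatorElement

namespace Pool.Agent.H11.KT

open Pool.Agent.H11.EL

theorem PF_of_Forcing {r : ℕ} {w : FreeGroup (Fin r)} (hw : ForcingWord w) :
    PerfectForcing w := by
  rcases hw with ⟨m, c, hc, h⟩ | h
  · intro H _ hH x y
    exact all_RX m c hc H (h H hH) x y
  · exact h

theorem main_widthA (r : ℕ) (w : FreeGroup (Fin r)) (hw : ForcingWord w) (ρ d : ℕ) :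
    ∃ K : ℕ, ∀ (G : Type) [Group G] [Finite G],
      (∃ S : Subgroup G, S.Normal ∧ Group.IsSolvable S ∧ S.index ≤ ρ) →
      (∃ s : Finset G, s.card ≤ d ∧ Subgroup.closure (s : Set G) = ⊤) →
      ∀ g ∈ Subgroup.closure (Set.range (fun f : Fin r → G => FreeGroup.lift f w)),
        PW w K g :=
  all_widthA r w (PF_of_Forcing hw) ρ d

theorem main_commA (r : ℕ) (w : FreeGroup (Fin r)) (hw : ForcingWord w) (ρ k : ℕ) :
    ∃ M : ℕ, ∀ (G : Type) [Group G], Cplx (BaseA ρ) k G → ∀ x y : G, PW w M ⁅x, y⁆ :=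
  all_commA r w (PF_of_Forcing hw) ρ k

end Pool.Agent.H11.KT
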