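import Pool.Agent.H11.EL.Stmt

/-!
# MP_0b603e_al: definitions used in the final statements, second part
-/

set_option autoImplicit false

open scoped commutatorElement

namespace Pool.Agent.H11.KT

/-- `w` is perfect forcing: in every group with the law `w` every commutator lies in a finitely
generated perfect subgroup -/
def PerfectForcing {r : ℕ} (w : FreeGroup (Fin r)) : Prop :=
  ∀ (H : Type) [Group H], (∀ f : Fin r → H, FreeGroup.lift f w = 1) →
    ∀ x y : H, ∃ A : Subgroup H, A.FG ∧ ⁅A, A⁆ = A ∧ ⁅x, y⁆ ∈ A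

/-- `Cplx S k G`: the group `G` has complexity at most `k` over the class `S` of groups.
Complexity `0`: the groups in `S`.
Complexity `k + 1`: groups of complexity `k`; extensions of a group of complexity `k` by a group
of complexity `k`; products `A B` of two subgroups of complexity `k`; Cartesian products of groups
of complexity `k`; homomorphic images of groups of complexity `k`; groups any two elements of
which lie in a subgroup of complexity `k`. -/
def Cplx (S : (G : Type) → [Group G] → Prop) : ℕ → (G : Type) → [Group G] → Prop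
  | 0, G, _ => S G
  | k + 1, G, _ => Cplx S k G ∨
      (∃ (N : Subgroup G) (_ : N.Normal), Cplx S k N ∧ Cplx S k (G ⧸ N)) ∨
      (∃ A B : Subgroup G, (∀ g : G, ∃ a ∈ A, ∃ b ∈ B, g = a * b) ∧
        Cplx S k A ∧ Cplx S k B) ∨
      (∃ (I : Type) (H : I → Type) (_ : ∀ i, Group (H i)), (∀ i, Cplx S k (H i)) ∧
        Nonempty (G ≃* (∀ i, H i))) ∨
      (∃ (H : Type) (_ : Group H), Cplx S k H ∧ ∃ φ : H →* G, Function.Surjective φ) ∨
      (∀ x y : G, ∃ A : Subgroup G, x ∈ A ∧ y ∈ A ∧ Cplx S k A)

/-- nilpotent groups, finite groups of order at most `ρ`, and all finite soluble groups -/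
def BaseA (ρ : ℕ) (G : Type) [Group G] : Prop :=
  Group.IsNilpotent G ∨ (Finite G ∧ Nat.card G ≤ ρ) ∨ (Finite G ∧ Group.IsSolvable G)

/-- nilpotent groups, finite groups of order at most `ρ`, finite soluble groups whose order has
at most `ρ` prime divisors, and finite soluble groups `G` such that both `G` and its derived
group can be generated by `ρ` elements -/
def BaseB (ρ : ℕ) (G : Type) [Group G] : Prop :=
  Group.IsNilpotent G ∨ (Finite G ∧ Nat.card G ≤ ρ) ∨
    (Finite G ∧ Group.IsSolvable G ∧ (Nat.card G).primeFactors.card ≤ ρ) ∨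
    (Finite G ∧ Group.IsSolvable G ∧ (∃ s : Fin ρ → G, Subgroup.closure (Set.range s) = ⊤) ∧
      ∃ s : Fin ρ → G, Subgroup.closure (Set.range s) = commutator G)

/-- the word `⁅y, x⁆ c(y ^ x, y ^ (x ^ 2), ..)` -/
def rword (m : ℕ) (c : FreeGroup (Fin m)) : FreeGroup (Fin 2) :=
  ⁅(FreeGroup.of 1 : FreeGroup (Fin 2)), (FreeGroup.of 0 : FreeGroup (Fin 2))⁆ *
    FreeGroup.lift (fun i : Fin m =>
      FreeGroup.of 0 ^ ((i : ℕ) + 1) * FreeGroup.of 1 * (FreeGroup.of 0 ^ ((i : ℕ) + 1))⁻¹) c

end Pool.Agent.H11.KT
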