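import Pool.Agent.H6.KT.PRS
import Pool.Agent.H11.KT.Stmt

/-!
# MP_0b603e_al: words which force finitely generated perfect subgroups
-/

set_option autoImplicit false

open scoped commutatorElement

namespace Pool.Agent.H11.KT

open Pool.Agent.H11.EL

/-- commutators in finite soluble groups -/
theorem pf_RSP (hKP : P_KP) (hPP : P_PP) : ∀ (r : ℕ) (w : FreeGroup (Fin r)), PerfectForcing w →
    ∃ M : ℕ, ∀ (G : Type) [Group G] [Finite G], Group.IsSolvable G → ∀ x y : G, PW w M ⁅x, y⁆ := by
  intro r w hw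
  by_contra hcon
  push Not at hcon
  choose G grp fin hsol x y hxy using hcon
  let _ : ∀ K, Group (G K) := grp
  let N : Subgroup (∀ K, G K) :=
    Subgroup.closure (Set.range (fun f : Fin r → (∀ K, G K) => FreeGroup.lift f w))
  have hN : N.Normal := Pool.Agent.H6.KT.RS_normal w _
  let mk := QuotientGroup.mk' N
  have hmk : Function.Surjective mk := QuotientGroup.mk'_surjective N
  have hlaw : ∀ f : Fin r → (∀ K, G K) ⧸ N, FreeGroup.lift f w = 1 := by
    intro f
    choose F hF using fun i => hmk (f i)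
    have h1 : f = fun i => mk (F i) := by
      funext i
      exact (hF i).symm
    rw [h1, ← Pool.Agent.H6.KT.RS_lift_map]
    exact (QuotientGroup.eq_one_iff _).2 (Subgroup.subset_closure ⟨F, rfl⟩)
  -- the perfect subgroup
  obtain ⟨H, hHFG, hHH, hxyH⟩ := hw _ hlaw (mk x) (mk y)
  obtain ⟨T, hT⟩ := hHFG
  let s := T.card
  let u' : Fin s → (∀ K, G K) ⧸ N := fun i => (T.equivFin.symm i : (∀ K, G K) ⧸ N)
  have hu'r : Set.range u' = (T : Set _) := by
    ext z
    constructor
    · rintro ⟨i, rfl⟩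
      exact (T.equivFin.symm i).2
    · intro hz
      exact ⟨T.equivFin ⟨z, hz⟩, by simp [u']⟩
  choose u hu using fun i => hmk (u' i)
  let L : Subgroup (∀ K, G K) := Subgroup.closure (Set.range u)
  have hLm : L.map mk = H := by
    rw [← hT, ← hu'r, MonoidHom.map_closure, ← Set.range_comp]
    congr 2
    funext i
    exact hu i
  have hcex : ∀ i, ∃ c ∈ ⁅L, L⁆, mk c = mk (u i) := by
    intro i
    have h1 : mk (u i) ∈ ⁅L, L⁆.map mk := by
      rw [Subgroup.map_commutator, hLm, hHH, ← hLm]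
      exact ⟨u i, Subgroup.subset_closure ⟨i, rfl⟩, rfl⟩
    obtain ⟨c, hc, hc'⟩ := h1
    exact ⟨c, hc, hc'⟩
  choose c hcL hcu using hcex
  have hcN : ∀ i, (c i)⁻¹ * u i ∈ N := fun i => QuotientGroup.eq.1 (hcu i)
  choose m hm using fun i => hPP r w G _ (hcN i)
  obtain ⟨M₀, hM₀⟩ := hKP r w s (∑ i, m i)
  have hevL : ∀ K, L.map (Pi.evalMonoidHom G K) = Subgroup.closure (Set.range fun i => u i K) := by
    intro K
    rw [MonoidHom.map_closure, ← Set.range_comp]
    rfl
  have hKcomm : ∀ K, ∀ g ∈ (⁅Subgroup.closure (Set.range fun i => u i K),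
      Subgroup.closure (Set.range fun i => u i K)⁆ : Subgroup (G K)), PW w M₀ g := by
    intro K
    have hfin : Finite (G K) := fin K
    have hs : Group.IsSolvable (G K) := hsol K
    refine hM₀ (G K) (Subgroup.closure (Set.range fun i => u i K)) inferInstance
      (fun i => u i K) (fun i => c i K) rfl ?_ ?_
    · intro i
      rw [← hevL, ← Subgroup.map_commutator]
      exact ⟨c i, hcL i, rfl⟩
    · intro i
      exact (hm i K).mono (Finset.single_le_sum (fun j _ => Nat.zero_le (m j)) (Finset.mem_univ i))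
  -- the bounded elements
  let B : Subgroup (∀ K, G K) :=
    { carrier := {g | ∃ k : ℕ, ∀ K, PW w k (g K)}
      one_mem' := ⟨0, fun K => PW.one 0⟩
      mul_mem' := by
        rintro a b ⟨k, hk⟩ ⟨l, hl⟩
        exact ⟨k + l, fun K => (hk K).mul (hl K)⟩
      inv_mem' := by
        rintro a ⟨k, hk⟩
        exact ⟨k, fun K => (hk K).inv⟩ }
  have hLB : L ≤ B := by
    refine (Subgroup.closure_le _).2 ?_
    rintro _ ⟨i, rfl⟩
    refine ⟨M₀ + m i, fun K => ?_⟩
    have h1 : c i K ∈ (⁅Subgroup.closure (Set.range fun i => u i K),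
        Subgroup.closure (Set.range fun i => u i K)⁆ : Subgroup (G K)) := by
      rw [← hevL, ← Subgroup.map_commutator]
      exact ⟨c i, hcL i, rfl⟩
    have h2 := (hKcomm K _ h1).mul (hm i K)
    have h3 : c i K * ((c i)⁻¹ * u i) K = u i K := by
      change c i K * ((c i K)⁻¹ * u i K) = u i K
      rw [mul_inv_cancel_left]
    rwa [h3] at h2
  have hNB : N ≤ B := fun g hg => hPP r w G g hg
  have hxyC : mk ⁅x, y⁆ ∈ L.map mk := by
    rw [hLm, map_commutatorElement]
    exact hxyH
  obtain ⟨l, hl, hl'⟩ := hxyC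
  have hν : l⁻¹ * ⁅x, y⁆ ∈ N := QuotientGroup.eq.1 hl'
  have hB : ⁅x, y⁆ ∈ B := by
    have e : ⁅x, y⁆ = l * (l⁻¹ * ⁅x, y⁆) := by rw [mul_inv_cancel_left]
    rw [e]
    exact B.mul_mem (hLB hl) (hNB hν)
  obtain ⟨k, hk⟩ := hB
  exact hxy k (hk k)


/-- a two generator group with the law `w` in which the derived group is finitely generated and
perfect -/
theorem PF_of_RW {r : ℕ} {w : FreeGroup (Fin r)} (hw : RW w) : PerfectForcing w := by
  intro Q _ hlaw x y
  let H : Subgroup Q := Subgroup.closure {x, y}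
  have hx : x ∈ H := Subgroup.subset_closure (Or.inl rfl)
  have hy : y ∈ H := Subgroup.subset_closure (Or.inr rfl)
  have hH : Subgroup.closure ({(⟨x, hx⟩ : H), ⟨y, hy⟩} : Set H) = ⊤ := by
    apply Subgroup.map_injective H.subtype_injective
    rw [MonoidHom.map_closure, Set.image_pair, ← MonoidHom.range_eq_map, Subgroup.range_subtype]
    rfl
  obtain ⟨hFG, hperf⟩ := hw H ⟨x, hx⟩ ⟨y, hy⟩ hH (by
    intro f
    apply H.subtype_injective
    rw [Pool.Agent.H6.KT.RS_lift_map, map_one]
    exact hlaw _)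
  have hC : (commutator H).map H.subtype = ⁅H, H⁆ := Subgroup.map_subtype_commutator H
  refine ⟨⁅H, H⁆, ?_, ?_, Subgroup.commutator_mem_commutator hx hy⟩
  · classical
    obtain ⟨T, hT⟩ := hFG
    refine ⟨T.image H.subtype, ?_⟩
    rw [Finset.coe_image, ← MonoidHom.map_closure, hT]
    exact hC
  · rw [← hC, ← Subgroup.map_commutator, hperf]

theorem MA_of_PF {r : ℕ} {w : FreeGroup (Fin r)} (hw : PerfectForcing w) : MA w := by
  intro H _ hH hlaw x y
  obtain ⟨A, _, hA, hxy⟩ := hw H hlaw x y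
  have h1 : A ≤ derivedSeries H 1 := by
    rw [← hA, derivedSeries_succ, derivedSeries_zero]
    exact Subgroup.commutator_mono le_top le_top
  have h2 : A ≤ derivedSeries H 2 := by
    rw [← hA, derivedSeries_succ]
    exact Subgroup.commutator_mono h1 h1
  rw [hH] at h2
  have h3 := h2 hxy
  rw [Subgroup.mem_bot, commutatorElement_eq_one_iff_mul_comm] at h3
  exact h3

end Pool.Agent.H11.KT
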