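import Pool.Agent.H11.KT.Defs

/-!
# MP_0b603e_al (uniform ellipticity of words): products of conjugates, targets
-/

set_option autoImplicit false

open scoped commutatorElement

namespace Pool.Agent.H11.KT

open Pool.Agent.H11.EL

/-! ## Part F: the fixed vectors of the generators -/

/-- (SO) an abelian normal section -/
def F_SO : Prop := ∀ (G : Type) [Group G], Group.IsSolvable G → ∀ C : Subgroup G, C.Normal →
  C ≠ ⊤ → ∃ R : Subgroup G, R.Normal ∧ C < R ∧ ⁅R, R⁆ ≤ C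

/-- (NO) a normal subgroup which contains generators modulo the derived group -/
def F_NO : Prop := ∀ (G : Type) [Group G], Group.IsSolvable G → ∀ (S : Set G) (K : Subgroup G),
  Subgroup.closure (S ∪ (commutator G : Set G)) = ⊤ → K.Normal → S ⊆ K → K = ⊤

/-- (IN) intersections -/
def F_IN : Prop := ∀ (V : Type) [AddCommGroup V] [Finite V] (U U' : AddSubgroup V),
  Nat.card U * Nat.card U' ≤ Nat.card V * Nat.card (U ⊓ U' : AddSubgroup V)

/-- (CM) the fixed vectors of a commutator -/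
def F_CM : Prop := ∀ (G V : Type) [Group G] [AddCommGroup V] [DistribMulAction G V] [Finite V]
  (x n : G), fc V n ^ 2 ≤ Nat.card V * fc V ⁅x, n⁆

/-- (MV) an element which moves all the blocks -/
def F_MV : Prop := ∀ (G V : Type) [Group G] [AddCommGroup V] [DistribMulAction G V] [Finite V]
  (Ω : Type) [Fintype Ω] [MulAction G Ω] (e : Ω → V →+ V), Sys G e → ∀ b : G,
    (∀ ω : Ω, b • ω ≠ ω) → fc V b ^ 2 ≤ Nat.card V

/-- (CO) a coarsest system: normal subgroups act trivially or transitively on the blocks -/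
def F_CO : Prop := ∀ (G V : Type) [Group G] [AddCommGroup V] [DistribMulAction G V] [Finite V],
  Irr G V → (∃ (Ω : Type) (_ : Fintype Ω) (_ : MulAction G Ω) (e : Ω → V →+ V),
    Sys G e ∧ 2 ≤ Fintype.card Ω) →
  ∃ (Ω : Type) (_ : Fintype Ω) (_ : MulAction G Ω) (e : Ω → V →+ V), Sys G e ∧
    2 ≤ Fintype.card Ω ∧ (∀ ω ω' : Ω, ∃ g : G, g • ω = ω') ∧
    ∀ R : Subgroup G, R.Normal → (∀ r ∈ R, ∀ ω : Ω, r • ω = ω) ∨
      ∀ ω ω' : Ω, ∃ r ∈ R, r • ω = ω'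

/-- (IM) the imprimitive case -/
def F_IM : Prop := ∀ (G V : Type) [Group G] [AddCommGroup V] [DistribMulAction G V] [Finite V],
  Group.IsSolvable G → Irr G V → (∃ (Ω : Type) (_ : Fintype Ω) (_ : MulAction G Ω)
    (e : Ω → V →+ V), Sys G e ∧ 2 ≤ Fintype.card Ω) →
  ∀ S : Set G, Subgroup.closure (S ∪ (commutator G : Set G)) = ⊤ →
    ∃ n ∈ S, fc V n ^ 4 ≤ Nat.card V ^ 3

/-- (SB) if there is no system of projections then abelian normal subgroups act without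
fixed vectors -/
def F_SB : Prop := ∀ (G V : Type) [Group G] [AddCommGroup V] [DistribMulAction G V] [Finite V]
  [FaithfulSMul G V], Irr G V → (∃ (Ω : Type) (_ : Fintype Ω) (_ : MulAction G Ω)
    (e : Ω → V →+ V), Sys G e ∧ 2 ≤ Fintype.card Ω) ∨
  ∀ A : Subgroup G, A.Normal → (∀ a ∈ A, ∀ a' ∈ A, a * a' = a' * a) → ∀ a ∈ A, a ≠ 1 →
    ∀ v : V, a • v = v → v = 0

/-- (PM) the primitive case -/
def F_PM : Prop := ∀ (G V : Type) [Group G] [AddCommGroup V] [DistribMulAction G V] [Finite V]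
  [FaithfulSMul G V], Group.IsSolvable G → Irr G V → Nontrivial G →
  (∀ A : Subgroup G, A.Normal → (∀ a ∈ A, ∀ a' ∈ A, a * a' = a' * a) → ∀ a ∈ A, a ≠ 1 →
    ∀ v : V, a • v = v → v = 0) →
  ∀ S : Set G, Subgroup.closure (S ∪ (commutator G : Set G)) = ⊤ →
    ∃ n ∈ S, fc V n ^ 4 ≤ Nat.card V ^ 3

/-- (MO) irreducible modules -/
def F_MO : Prop := ∀ (G V : Type) [Group G] [AddCommGroup V] [DistribMulAction G V] [Finite V],
  Group.IsSolvable G → Irr G V → (∃ (g : G) (v : V), g • v ≠ v) →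
  ∀ S : Set G, Subgroup.closure (S ∪ (commutator G : Set G)) = ⊤ →
    ∃ n ∈ S, fc V n ^ 4 ≤ Nat.card V ^ 3

/-- (FS) chief factors -/
def F_FS : Prop := ∀ (G : Type) [Group G] [Finite G], Group.IsSolvable G → ∀ M Z : Subgroup G,
  CF M Z → ∀ S : Set G, Subgroup.closure (S ∪ (commutator G : Set G)) = ⊤ →
    ∃ n ∈ S, cz M Z n ^ 4 ≤ Nat.card M ^ 3 * Nat.card Z

/-! ## Part K: lifting of products of conjugates -/

/-- (BL) expansion of `Ps` -/
def K_BL : Prop := ∀ (G : Type) [Group G] (M : Subgroup G), M.Normal →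
  (∀ x ∈ M, ∀ y ∈ M, ∀ g : G, ⁅x, y⁆ * g = g * ⁅x, y⁆) → ∀ (n : ℕ) (t x u : ℕ → G),
    (∀ i, x i ∈ M) → (∀ i, u i ∈ M) →
      Ps n t (fun i => x i * u i) = Ps n t x * Ps n t u * Bs n t x u

/-- (BC) `Bs` takes values in the derived group of `M` -/
def K_BC : Prop := ∀ (G : Type) [Group G] (M : Subgroup G), M.Normal →
  ∀ (n : ℕ) (t x u : ℕ → G), (∀ i, x i ∈ M) → (∀ i, u i ∈ M) → Bs n t x u ∈ ⁅M, M⁆

/-- (BM) `Bs` is multiplicative in its first argument -/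
def K_BM : Prop := ∀ (G : Type) [Group G] (M : Subgroup G), M.Normal →
  (∀ x ∈ M, ∀ y ∈ M, ∀ g : G, ⁅x, y⁆ * g = g * ⁅x, y⁆) → ∀ (n : ℕ) (t x y u : ℕ → G),
    (∀ i, x i ∈ M) → (∀ i, y i ∈ M) → (∀ i, u i ∈ M) →
      Bs n t (fun i => x i * y i) u = Bs n t x u * Bs n t y u

/-- (ND) the radical of `Bs` -/
def K_ND : Prop := ∀ (G : Type) [Group G] (M Z D : Subgroup G), M.Normal → Z.Normal → Z ≤ M →
  (∀ x ∈ M, ∀ y ∈ M, ∀ g : G, ⁅x, y⁆ * g = g * ⁅x, y⁆) → (∀ z ∈ Z, ∀ g : G, z * g = g * z) →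
  (∀ m ∈ M, (∀ m' ∈ M, ⁅m, m'⁆ ∈ D) → m ∈ Z) →
  ∀ (n : ℕ) (t u : ℕ → G), (∀ i, u i ∈ M) →
    (∀ x : ℕ → G, (∀ i, x i ∈ M) → Bs n t x u ∈ D) → ∀ i < n, ⁅u i, t i⁆ ∈ Z

/-- (LN) abelian normal subgroups -/
def K_LN : Prop := ∀ (G : Type) [Group G] (A C : Subgroup G), A.Normal →
  (∀ x ∈ A, ∀ y ∈ A, x * y = y * x) → (∀ x ∈ A, ∀ c ∈ C, x * c = c * x) →
  ∀ (n : ℕ) (t : ℕ → G), Subgroup.closure (en n t ∪ C) = ⊤ →
    ∀ κ ∈ ⁅A, (⊤ : Subgroup G)⁆, ∃ x : ℕ → G, (∀ i, x i ∈ A) ∧ Ps n t x = κ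

/-- (LM) the same modulo the derived group of `M` -/
def K_LM : Prop := ∀ (G : Type) [Group G] (M : Subgroup G), M.Normal →
  ∀ (n : ℕ) (t : ℕ → G), Subgroup.closure (en n t ∪ M) = ⊤ →
    ∀ κ ∈ ⁅M, (⊤ : Subgroup G)⁆, ∃ x : ℕ → G, (∀ i, x i ∈ M) ∧
      ∃ δ ∈ ⁅M, M⁆, Ps n t x * δ = κ

/-- (BA) the number of the variations which do not generate -/
def K_BA : Prop := ∀ (G : Type) [Group G] [Finite G] (M Z : Subgroup G), CF M Z →
  ∀ (d : ℕ) (s : Fin d → G), Subgroup.closure (Set.range s) = ⊤ →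
  ∀ (n : ℕ) (t : ℕ → G), Subgroup.closure (en n t ∪ M) = ⊤ →
    Nat.card {x : Fin n → M // Subgroup.closure
      (en n (cj t (sq n (1 : G) fun j => ((x j : M) : G))) ∪ Z) ≠ ⊤} ≤
      Z.relIndex M ^ d * Nat.card {u : Fin n → M // ∀ i : Fin n, ⁅((u i : M) : G), t i⁆ ∈ Z}

/-- (CI) conjugates and inverses have the same number of fixed elements -/
def K_CI : Prop := ∀ (G : Type) [Group G] (M Z : Subgroup G), M.Normal → Z.Normal →
  ∀ t c : G, cz M Z (c * t * c⁻¹) = cz M Z t ∧ cz M Z t⁻¹ = cz M Z t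

/-- (PI) the number of the fixed tuples is a product -/
def K_PI : Prop := ∀ (G : Type) [Group G] [Finite G] (M Z : Subgroup G) (n : ℕ) (t : ℕ → G),
  Nat.card {u : Fin n → M // ∀ i : Fin n, ⁅((u i : M) : G), t i⁆ ∈ Z} =
    ∏ i ∈ Finset.range n, cz M Z (t i)

/-- (PR) estimate of the product for the pattern -/
def K_PR : Prop := ∀ (G : Type) [Group G] [Finite G] (M Z : Subgroup G), M.Normal → Z.Normal →
  Z ≤ M → ∀ (s m : ℕ) (n c : ℕ → G) (i₀ : ℕ), i₀ < s →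
    cz M Z (n i₀) ^ 4 ≤ Nat.card M ^ 3 * Nat.card Z →
    (∏ i ∈ Finset.range (2 * s * m), cz M Z (cj (pat s n) c i)) ^ 4 * Z.relIndex M ^ (2 * m) ≤
      Nat.card M ^ (4 * (2 * s * m))

/-- (LL) the counting lemma: `Z` central -/
def K_LL : Prop := ∀ (G : Type) [Group G] [Finite G] (M Z : Subgroup G), CF M Z →
  (∀ z ∈ Z, ∀ g : G, z * g = g * z) → ∀ (d : ℕ) (s : Fin d → G),
    Subgroup.closure (Set.range s) = ⊤ → ∀ (n : ℕ) (t : ℕ → G),
    Subgroup.closure (en n t ∪ M) = ⊤ →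
    Nat.card {u : Fin n → M // ∀ i : Fin n, ⁅((u i : M) : G), t i⁆ ∈ Z} *
      Z.relIndex M ^ (2 * (d + 3)) ≤ Nat.card M ^ n →
    ∀ κ ∈ M, ∃ x : ℕ → G, (∀ i, x i ∈ M) ∧ Ps n t x = κ ∧
      Subgroup.closure (en n (cj t x) ∪ Z) = ⊤

/-- (QT) the number of the fixed tuples in a quotient -/
def K_QT : Prop := ∀ (G : Type) [Group G] [Finite G] (M Z R : Subgroup G) [R.Normal], R ≤ Z →
  Z ≤ M → ∀ (n : ℕ) (t : ℕ → G),
    Nat.card {u : Fin n → M // ∀ i : Fin n, ⁅((u i : M) : G), t i⁆ ∈ Z} =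
      Nat.card R ^ n * Nat.card {u : Fin n → M.map (QuotientGroup.mk' R) // ∀ i : Fin n,
        ⁅((u i : M.map (QuotientGroup.mk' R)) : G ⧸ R), QuotientGroup.mk' R (t i)⁆ ∈
          Z.map (QuotientGroup.mk' R)} ∧
    Nat.card M = Nat.card R * Nat.card (M.map (QuotientGroup.mk' R)) ∧
    (Z.map (QuotientGroup.mk' R)).relIndex (M.map (QuotientGroup.mk' R)) = Z.relIndex M

/-- (GS) lifting from `G / M` to `G` -/
def K_GS : Prop := ∀ (G : Type) [Group G] [Finite G] (M Z : Subgroup G), CF M Z →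
  ∀ (d : ℕ) (s : Fin d → G), Subgroup.closure (Set.range s) = ⊤ → ∀ (n : ℕ) (t : ℕ → G),
    Subgroup.closure (en n t ∪ M) = ⊤ →
    Nat.card {u : Fin n → M // ∀ i : Fin n, ⁅((u i : M) : G), t i⁆ ∈ Z} *
      Z.relIndex M ^ (2 * (d + 3)) ≤ Nat.card M ^ n →
    ∀ κ ∈ M, ∃ x : ℕ → G, (∀ i, x i ∈ M) ∧ Ps n t x = κ ∧ Subgroup.closure (en n (cj t x)) = ⊤

/-- (NG) generators of nilpotent groups -/
def K_NG : Prop := ∀ (G : Type) [Group G], Group.IsNilpotent G → ∀ S : Set G,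
  Subgroup.closure (S ∪ (commutator G : Set G)) = ⊤ → Subgroup.closure S = ⊤

/-- (NP) nilpotent groups -/
def K_NP : Prop := ∀ (G : Type) [Group G], Group.IsNilpotent G → ∀ (s m : ℕ) (n : ℕ → G),
  0 < m → Subgroup.closure (en s n ∪ (commutator G : Set G)) = ⊤ → ∀ g ∈ commutator G,
    ∃ c : ℕ → G, Px (2 * s * m) (cj (pat s n) c) = g ∧
      Subgroup.closure (en (2 * s * m) (cj (pat s n) c)) = ⊤

/-- (KI) every element of the derived group is a product of conjugates, which generate `G` -/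
def K_KI : Prop := ∀ (d s : ℕ) (G : Type) [Group G] [Finite G], Group.IsSolvable G →
  ∀ h : Fin d → G, Subgroup.closure (Set.range h) = ⊤ → ∀ n : ℕ → G,
    Subgroup.closure (en s n ∪ (commutator G : Set G)) = ⊤ → ∀ g ∈ commutator G,
      ∃ c : ℕ → G, Px (2 * s * (4 * (d + 3))) (cj (pat s n) c) = g ∧
        Subgroup.closure (en (2 * s * (4 * (d + 3))) (cj (pat s n) c)) = ⊤

/-- (KT) the key theorem -/
def K_KT : Prop := ∀ s : ℕ, ∃ f : ℕ, ∀ (G : Type) [Group G] [Finite G], Group.IsSolvable G →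
  ∀ h n : Fin s → G, Subgroup.closure (Set.range h) = ⊤ →
    (∀ i, (h i)⁻¹ * n i ∈ commutator G) → ∀ g ∈ commutator G, ∃ l : List G, l.length ≤ f ∧
      (∀ x ∈ l, ∃ (i : Fin s) (c : G), x = c * n i * c⁻¹ ∨ x = c * (n i)⁻¹ * c⁻¹) ∧ l.prod = g

/-! ## Part P: words -/

/-- (KP) the key theorem for words: if the generators of a finite soluble group are
products of `m` values modulo the derived group then the elements of the derived group are
products of boundedly many values -/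
def P_KP : Prop := ∀ (r : ℕ) (w : FreeGroup (Fin r)) (s m : ℕ), ∃ M : ℕ, ∀ (G : Type) [Group G]
  (L : Subgroup G) [Finite L], Group.IsSolvable L → ∀ u c : Fin s → G,
    Subgroup.closure (Set.range u) = L → (∀ i, c i ∈ ⁅L, L⁆) → (∀ i, PW w m ((c i)⁻¹ * u i)) →
      ∀ g ∈ ⁅L, L⁆, PW w M g

/-- (PP) Cartesian products -/
def P_PP : Prop := ∀ (r : ℕ) (w : FreeGroup (Fin r)) (G : ℕ → Type) [∀ K, Group (G K)]
  (g : ∀ K, G K), g ∈ Subgroup.closure (Set.range (fun f : Fin r → (∀ K, G K) =>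
    FreeGroup.lift f w)) → ∃ m : ℕ, ∀ K, PW w m (g K)

/-- (RS) words with property `RW` in finite soluble groups -/
def P_RS : Prop := ∀ (r : ℕ) (w : FreeGroup (Fin r)), RW w → ∃ M : ℕ,
  ∀ (G : Type) [Group G] [Finite G], Group.IsSolvable G → ∀ x y : G, PW w M ⁅x, y⁆

/-- (BS) finite soluble groups such that `G` and its derived group have few generators -/
def P_BS : Prop := ∀ (r : ℕ) (w : FreeGroup (Fin r)), MA w → ∀ ρ : ℕ, ∃ M : ℕ,
  ∀ (G : Type) [Group G] [Finite G], Group.IsSolvable G →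
    (∃ s : Fin ρ → G, Subgroup.closure (Set.range s) = ⊤) →
    (∃ s : Fin ρ → G, Subgroup.closure (Set.range s) = commutator G) → ∀ x y : G, PW w M ⁅x, y⁆

/-- (RM) `RW` implies `MA` -/
def P_RM : Prop := ∀ (r : ℕ) (w : FreeGroup (Fin r)), RW w → MA w

/-- (FG) finitely generated restrained groups have a finitely generated derived group -/
def P_FG : Prop := ∀ (m : ℕ) (H : Type) [Group H],
  (∀ a b : H, a ∈ Subgroup.closure {g | ∃ i : ℕ, 1 ≤ i ∧ i ≤ m ∧ g = b ^ i * a * (b ^ i)⁻¹}) →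
    ∀ x y : H, Subgroup.closure ({x, y} : Set H) = ⊤ → (commutator H).FG

/-- the word `⁅y, x⁆ c(y ^ x, y ^ (x ^ 2), ..)` -/
def rw (m : ℕ) (c : FreeGroup (Fin m)) : FreeGroup (Fin 2) :=
  ⁅(FreeGroup.of 1 : FreeGroup (Fin 2)), (FreeGroup.of 0 : FreeGroup (Fin 2))⁆ * FreeGroup.lift (fun i : Fin m =>
    FreeGroup.of 0 ^ ((i : ℕ) + 1) * FreeGroup.of 1 * (FreeGroup.of 0 ^ ((i : ℕ) + 1))⁻¹) c

/-- (MX) the words `rw m c` have property `MA` -/
def P_MX : Prop := ∀ (m : ℕ) (c : FreeGroup (Fin m)), c ∈ commutator (FreeGroup (Fin m)) →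
  MA (rw m c)

/-- (RX) the words `rw m c` have property `RW` -/
def P_RX : Prop := ∀ (m : ℕ) (c : FreeGroup (Fin m)), c ∈ commutator (FreeGroup (Fin m)) →
  RW (rw m c)

end Pool.Agent.H11.KT
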